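import Pool.Agent.Lib.MP_ab8df0_nt.B.Auto2
import Pool.Agent.Lib.MP_ab8df0_nt.P.N4D

/-! Constants, proof tree and the result of the computation. -/

set_option maxRecDepth 100000

namespace Pool.Agent.Lib.MP_ab8df0_nt.T.B64

open Pool.Agent.Lib.MP_ab8df0_nt.B Pool.Agent.Lib.MP_ab8df0_nt.P

def vs : Cs := [([0, 1], 1), ([], 1), ([], 1), ([], 1), 
  ([4, 0, 0, 0, 0, -4, 0, 0, 0, 0, 1], 2),
  ([2], 1),
  ([4, 0, 0, 4, 0, 0, 0, 0, -2], 1),
  ([2, 0, 0, 0, 0, 0, 1], 1),
  ([0, 1], 1),
  ([0, 0, 0, 2, 0, 0, 1, 1], 1),
  ([0, 0, 0, 2, -2, 0, 1, 0, -1], 1),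
  ([0, 0, -1, 0, 1, 1], 1),
  ([0, 0, 8, 0, 8, 8, -20, -4, 4, -4, -4, 4], 1),
  ([1, 0, 0, 0, 0, -1], 1),
  ([1, 0, 1], 1),
  ([0, 0, -1, 0, 2, 2, -2, -1, 0, -1, -2, 2, 2, 0, -1], 1),
  ([1, 0, 0, 0, 0, 0, 0, 0, 0, 0, 1], 1),
  ([-8, -104, -44, 72, 48, -8, 280, 132, -190, -136, 73, -64, -68, 27, 50], 1),
  ([0, 0, 0, 0, 0, 0, 0, 0, 0, 0, 0, 0, 1], 4)]

def M (t0 : ℤ) (k0 : ℕ) : List Hyp := [
  .disc 1 t0 k0,
  .eq 2 (.add (.mul (.num 2) (.inv (.add (.num 1) (.mul (.var 1) (.var 4))))) (.neg (.num 1))),
  .pw 3 2 (.add (.num 1) (.mul (.num 3) (.sq (.var 2)))),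
  .cls (.add (.var 3) (.neg (.num 1))) [5, 6, 7, 8, 9, 10, 11, 12, 13, 14, 15, 16, 17]]

def k0 : Cut := ⟨[0], [], [[true, false, false, false, false, false, false, false, false, false, false, false, false, false]], [[false, false, true, false, false, false, false, false, false, false, false, false, false, false], [true, false, true, false, false, false, false, false, false, false, false, false, true, false], [false, false, false, false, false, false, false, false, false, true, false, false, false, false], [false, true, false, false, false, false, false, false, false, false, false, false, false, false], [false, true, false, false, false, false, false, false, false, false, true, false, false, false], [true, true, false, true, false, false, false, false, false, false, true, false, false, false], [false, false, false, false, false, false, false, false, true, false, false, false, false, false], [false, false, true, true, false, false, false, false, false, true, false, false, false, true], [true, false, false, false, false, true, false, false, false, false, false,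 false, false, false], [false, false, false, false, true, false, false, false, false, false, false, false, false, false], [true, false, false, true, false, true, false, true, true, false, false, false, false, false], [false, false, false, false, false, false, true, false, false, false, false, false, false, false], [true, false, false, true, false, false, true, true, true, false, false, true, false, false]], [[true, false, false, false, false, false, false, false, false, false, false, false, false, false], [false, false, false, false, true, false, false, false, false, false, false, false, false, false], [false, true, false, false, false, false, false, false, false, false, false, false, false, false], [true, false, false, false, false, true, true, false, false, false, false, false, false, false], [false, false, false, false, false, false, false, false, false, false, true, false, false, false], [true, false, false, false, false, false, false, false, false, true, false, false, false, false], [false, false, false, false, false, false, false, false, false, false, false,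 false, true, false], [true, false, false, false, false, true, true, true, false, true, false, true, false, false], [false, false, false, false, false, false, false, true, false, false, false, false, false, false], [false, false, false, true, false, false, false, false, false, false, false, false, false, false], [false, false, false, false, true, true, false, false, false, false, false, false, false, false], [true, false, false, false, false, false, false, false, false, true, false, true, true, true], [true, true, true, false, false, false, false, false, false, false, false, false, false, false], [true, true, false, true, false, true, true, false, true, false, false, false, false, false]]⟩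

def A : List AH := [
  ]

theorem auto : (baseOk 3 vs && A.all (AH.ok FDN4 3 vs)) = true := by decide +kernel

def r0_0 : Tree := .set 4 [[ce (-1) 136 1 1 0x1]] (.set 5 [[]] (.set 6 [[]] (.set 7 [[]] (.set 8 [[]] (.set 9 [[]] (.set 10 [[]] (.set 11 [[]] (.set 12 [[]] (.set 13 [[]] (.set 14 [[]] (.set 15 [[]] (.set 16 [[]] (.set 17 [[]] (.piv [5, 6, 7, 8, 9, 10, 11, 12, 13, 14, 15, 16, 17] [[ce 0 136 1 0 0x0], [ce (-1) 136 1 1 0x1], [ce (-1) 136 1 10 0x200], [ce (-1) 136 1 15 0x4000], [ce (-1) 136 5 15 0x1f27c9f66d1b52749d2], [ce (-1) 136 5 15 0x40b0dc0b6e289602816], [ce (-1) 136 5 15 0x5b3cd3100672c8179de], [ce (-2) 136 5 15 0x6f90257b04121654940], [ce 0 136 5 11 0x6400000a00000f], [ce 0 136 5 15 0x3afb1a72138d0b83403], [ce (-1) 136 5 15 0x32b223016822dcc2200], [ce 0 136 5 11 0x6c000014000001], [ce (-1) 136 5 15 0x78476df0b76abcb2198]] (.disc 19 (.split 19 (.set 20 [[ce 0 136 1 1 0x1]] (.oroot 21 [[]] [(ce 0 136 4 12 0x60000d0000c0, ce (-2) 136 1 1 0x1)] (.dead 22 23 [[]] [false, false, false, false, false, false, false, false, true, false, true, false, false]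 [ce (-1) 136 4 15 0xa74aac88e26a020]))) (.set 20 [[ce 0 136 4 11 0xf0000d00001]] (.oroot 21 [[]] [(ce 0 136 4 12 0x900009000000, ce (-2) 136 3 11 0x140008007)] (.dead 22 23 [[]] [false, false, false, false, false, false, true, false, true, true, true, false, false] [ce (-1) 136 4 15 0x2a2f6cc6a4a8226])))))))))))))))))))

theorem r0 : run FDN4.ds FDN4.es [[ce 0 136 64 1 0xaaaaaaaaaaaaaaab]] vs.length (fullH 3 vs (M 0 0) A) r0_0 = true := by
  decide +kernel

theorem relth {K : Type} [Field K] [NumberField K] {a : K} {pl : List (Place K)} {ph : List (K →+* ℝ)}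
    {w : List (IsDedekindDomain.HeightOneSpectrum (NumberField.RingOfIntegers K))}
    (hP : Pack K FDN4 a pl ph w) : (cval a vs 4 * ((cval a vs 4) ^ 2)) = 2 := by
  have h : ((cval a vs 4 * ((cval a vs 4) ^ 2)) + (-(((2 : ℤ) : K)))) = 0 :=
    hP.rel vs (.add (.mul (.var 4) (.sq (.var 4))) (.neg (.num 2))) (by decide +kernel)
  have h0 : cval a vs 0 = a := by simp [cval, vs, ev]
  try rw [h0] at h
  try push_cast at h
  linear_combination h

theorem relbe {K : Type} [Field K] [NumberField K] {a : K} {pl : List (Place K)} {ph : List (K →+* ℝ)}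
    {w : List (IsDedekindDomain.HeightOneSpectrum (NumberField.RingOfIntegers K))}
    (hP : Pack K FDN4 a pl ph w) : (4 * (cval a vs 18 * ((((cval a vs 18) ^ 2)) ^ 2))) = (((cval a vs 4 - 1) * (((cval a vs 4 - 1)) ^ 2)) * (((cval a vs 4 - 1) * (((cval a vs 4 - 1)) ^ 2)) * (((cval a vs 4 - 1) * (((cval a vs 4 - 1)) ^ 2)) * ((cval a vs 4 - 1) * (((cval a vs 4 - 1)) ^ 2))))) := by
  have h : ((((4 : ℤ) : K) * (cval a vs 18 * ((((cval a vs 18) ^ 2)) ^ 2))) + (-((((cval a vs 4 + (-(((1 : ℤ) : K)))) * (((cval a vs 4 + (-(((1 : ℤ) : K))))) ^ 2)) * (((cval a vs 4 + (-(((1 : ℤ) : K)))) * (((cval a vs 4 + (-(((1 : ℤ) : K))))) ^ 2)) * (((cval a vs 4 + (-(((1 : ℤ) : K)))) * (((cval a vs 4 + (-(((1 : ℤ) : K))))) ^ 2)) * ((cval a vs 4 + (-(((1 : ℤ) : K)))) * (((cval a vs 4 + (-(((1 : ℤ) : K))))) ^ 2)))))))) = 0 :=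
    hP.rel vs (.add (.mul (.num 4) (.mul (.var 18) (.sq (.sq (.var 18))))) (.neg (.mul (.mul (.add (.var 4) (.neg (.num 1))) (.sq (.add (.var 4) (.neg (.num 1))))) (.mul (.mul (.add (.var 4) (.neg (.num 1))) (.sq (.add (.var 4) (.neg (.num 1))))) (.mul (.mul (.add (.var 4) (.neg (.num 1))) (.sq (.add (.var 4) (.neg (.num 1))))) (.mul (.add (.var 4) (.neg (.num 1))) (.sq (.add (.var 4) (.neg (.num 1)))))))))) (by decide +kernel)
  have h0 : cval a vs 0 = a := by simp [cval, vs, ev]
  try rw [h0] at h
  try push_cast at h
  linear_combination h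

theorem core {K : Type} [Field K] [NumberField K] {a : K} {pl : List (Place K)} {ph : List (K →+* ℝ)}
    {w : List (IsDedekindDomain.HeightOneSpectrum (NumberField.RingOfIntegers K))}
    (hP : Pack K FDN4 a pl ph w) {G : Prop} (t g X : K)
    (hdisc : Q2 0 (t - ((0 : ℤ) : K)))
    (hG : g = ((2 * ((1 + (t * cval a vs 4)))⁻¹) - 1))
    (hX : X ^ 5 = (1 + (3 * ((g) ^ 2))))
    (hcls : ∀ v : IsDedekindDomain.HeightOneSpectrum (NumberField.RingOfIntegers K), ((30 : ℕ) : NumberField.RingOfIntegers K) ∉ v.asIdeal →
      ∃ k : ℤ, v.valuation K (X - 1) = WithZero.exp (2 * k))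
    (hclsre : ∀ i ∈ [0], ∀ φ, ph[i]? = some φ → 0 < φ (X - 1)) :
    G := by
  refine hP.cover (fr := [t, g, X]) (M := M) (cs := [[ce 0 136 64 1 0xaaaaaaaaaaaaaaab]]) rfl auto
    (l := [(0, 0)]) (by decide) ?_ hdisc fun tt kk hq => ?_
  · exact List.forall_mem_cons.2 ⟨⟨_, r0⟩, fun _ h => absurd h List.not_mem_nil⟩
  · refine List.forall_mem_cons.2 ⟨?_, List.forall_mem_cons.2 ⟨?_, List.forall_mem_cons.2 ⟨?_, List.forall_mem_cons.2 ⟨?_, fun _ h => absurd h List.not_mem_nil⟩⟩⟩⟩
    · exact hq
    · show g = ((((2 : ℤ) : K) * ((((1 : ℤ) : K) + (t * cval a vs 4)))⁻¹) + (-(((1 : ℤ) : K))))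
      try push_cast
      linear_combination hG
    · show X ^ 5 = (((1 : ℤ) : K) + (((3 : ℤ) : K) * ((g) ^ 2)))
      try push_cast
      linear_combination hX
    · exact fun h0 => hP.span_cut (nf := 3) (vs := vs) (x := (X + (-(((1 : ℤ) : K))))) (fr := [t, g, X]) rfl k0 (by decide +kernel) h0 ((by push_cast; ring : (X + (-(((1 : ℤ) : K)))) = (X - 1)) ▸ hcls) ((by push_cast; ring : (X + (-(((1 : ℤ) : K)))) = (X - 1)) ▸ hclsre) (fun _ h => absurd h List.not_mem_nil)

end Pool.Agent.Lib.MP_ab8df0_nt.T.B64
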